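import Mathlib

/-!
Polynomials with alternating coefficients without zeros in the upper half plane, chains of
such polynomials.
-/

set_option autoImplicit false

namespace Pool.Agent.Run7.h651.TG

open Polynomial Finset

/-- the polynomial with coefficients `(-1)^l c l`, `l ≤ m` -/
noncomputable def pc (m : ℕ) (c : ℕ → ℝ) : ℂ[X] :=
  ∑ l ∈ range (m + 1), C ((((-1) ^ l * c l : ℝ)) : ℂ) * X ^ l

theorem pc_eval (m : ℕ) (c : ℕ → ℝ) (z : ℂ) :
    (pc m c).eval z = ∑ l ∈ range (m + 1), ((((-1) ^ l * c l : ℝ)) : ℂ) * z ^ l := by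
  unfold pc
  rw [eval_finsetSum]
  simp

theorem pc_conj (m : ℕ) (c : ℕ → ℝ) (z : ℂ) :
    (pc m c).eval ((starRingEnd ℂ) z) = (starRingEnd ℂ) ((pc m c).eval z) := by
  rw [pc_eval, pc_eval, map_sum]
  apply sum_congr rfl
  intro l _
  rw [map_mul, map_pow, Complex.conj_ofReal]

theorem pc_neg (m : ℕ) (c : ℕ → ℝ) (hc : ∀ l ≤ m, 0 < c l) (x : ℝ) (hx : x ≤ 0) :
    (pc m c).eval (x : ℂ) ≠ 0 := by
  rw [pc_eval]
  have h : ∑ l ∈ range (m + 1), ((((-1) ^ l * c l : ℝ)) : ℂ) * (x : ℂ) ^ l =
      ((∑ l ∈ range (m + 1), c l * (-x) ^ l : ℝ) : ℂ) := by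
    push_cast
    apply sum_congr rfl
    intro l _
    rw [neg_pow (x : ℂ) l]
    ring
  rw [h]
  have : 0 < ∑ l ∈ range (m + 1), c l * (-x) ^ l := by
    rw [sum_range_succ']
    have h0 : 0 < c 0 := hc 0 (Nat.zero_le _)
    have h1 : 0 ≤ ∑ l ∈ range m, c (l + 1) * (-x) ^ (l + 1) := by
      apply sum_nonneg
      intro l hl
      rw [mem_range] at hl
      have := hc (l + 1) (by omega)
      have hx' : 0 ≤ -x := by linarith
      positivity
    simp only [pow_zero, mul_one]
    linarith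
  exact_mod_cast this.ne'

theorem pc_deriv (m : ℕ) (c : ℕ → ℝ) (a : ℝ) (z : ℂ) :
    (pc m (fun l => (a + l) * c l)).eval z =
      a * (pc m c).eval z + z * (derivative (pc m c)).eval z := by
  have hd : z * (derivative (pc m c)).eval z =
      ∑ l ∈ range (m + 1), (l : ℂ) * (((((-1) ^ l * c l : ℝ)) : ℂ) * z ^ l) := by
    unfold pc
    rw [derivative_sum, eval_finsetSum, mul_sum]
    apply sum_congr rfl
    intro l _
    rw [derivative_C_mul_X_pow]
    cases l with
    | zero => simp
    | succ l =>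
      simp only [eval_mul, eval_C, eval_pow, eval_X, Nat.add_sub_cancel]
      push_cast
      ring
  rw [hd, pc_eval, pc_eval, mul_sum, ← sum_add_distrib]
  apply sum_congr rfl
  intro l _
  push_cast
  ring

theorem pc_smul (m : ℕ) (c : ℕ → ℝ) (a : ℝ) (z : ℂ) :
    (pc m (fun l => a * c l)).eval z = a * (pc m c).eval z := by
  rw [pc_eval, pc_eval, mul_sum]
  apply sum_congr rfl
  intro l _
  push_cast
  ring

theorem pc_congr (m : ℕ) (c d : ℕ → ℝ) (h : ∀ l ≤ m, c l = d l) : pc m c = pc m d := by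
  unfold pc
  apply sum_congr rfl
  intro l hl
  rw [mem_range] at hl
  rw [h l (by omega)]

/-- no zeros in the upper half plane -/
def NZ (P : ℂ[X]) : Prop := ∀ z : ℂ, 0 < z.im → P.eval z ≠ 0

/-- logarithmic derivatives have negative imaginary part -/
def Good (P : ℂ[X]) : Prop := ∀ z : ℂ, 0 < z.im → P.eval z ≠ 0 ∧
  (z * ((derivative P).eval z / P.eval z)).im < 0 ∧ ((derivative P).eval z / P.eval z).im < 0

theorem sum_im (z : ℂ) (hz : 0 < z.im) (s : Multiset ℂ) (hs : ∀ r ∈ s, r.im = 0 ∧ 0 < r.re) :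
    (z * (s.map fun r => 1 / (z - r)).sum).im ≤ 0 ∧ ((s.map fun r => 1 / (z - r)).sum).im ≤ 0 ∧
      (s ≠ 0 → (z * (s.map fun r => 1 / (z - r)).sum).im < 0 ∧
        ((s.map fun r => 1 / (z - r)).sum).im < 0) := by
  induction s using Multiset.induction_on with
  | empty => simp
  | cons r s ih =>
    obtain ⟨h1, h2, -⟩ := ih fun r hr => hs r (Multiset.mem_cons_of_mem hr)
    obtain ⟨hr0, hr1⟩ := hs r (Multiset.mem_cons_self r s)
    have hne : z - r ≠ 0 := by
      intro h
      have := congrArg Complex.im h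
      simp [hr0] at this
      exact hz.ne' this
    have hn : 0 < Complex.normSq (z - r) := Complex.normSq_pos.2 hne
    have e1 : (1 / (z - r)).im < 0 := by
      rw [one_div, Complex.inv_im]
      simp only [Complex.sub_im, hr0, sub_zero]
      exact div_neg_of_neg_of_pos (by linarith) hn
    have e2 : (z * (1 / (z - r))).im < 0 := by
      have : z * (1 / (z - r)) = 1 + r * (1 / (z - r)) := by
        field_simp
        ring
      rw [this, Complex.add_im, Complex.mul_im, hr0]
      simp only [Complex.one_im, zero_mul, add_zero, zero_add]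
      exact mul_neg_of_pos_of_neg hr1 e1
    simp only [Multiset.map_cons, Multiset.sum_cons, mul_add, Complex.add_im]
    refine ⟨by linarith, by linarith, fun _ => ⟨by linarith, by linarith⟩⟩

theorem good_of_nz (m : ℕ) (hm : 1 ≤ m) (c : ℕ → ℝ) (hc : ∀ l ≤ m, 0 < c l)
    (h : NZ (pc m c)) : Good (pc m c) := by
  intro z hz
  have hne := h z hz
  have hroots : ∀ r ∈ (pc m c).roots, r.im = 0 ∧ 0 < r.re := by
    intro r hr
    have hr0 : (pc m c).eval r = 0 := (mem_roots'.1 hr).2
    have i1 : ¬ 0 < r.im := fun hi => h r hi hr0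
    have i2 : ¬ 0 < ((starRingEnd ℂ) r).im := by
      intro hi
      apply h _ hi
      rw [pc_conj, hr0, map_zero]
    rw [Complex.conj_im] at i2
    have i3 : r.im = 0 := by linarith
    refine ⟨i3, ?_⟩
    by_contra hre
    push Not at hre
    apply pc_neg m c hc r.re hre
    have : ((r.re : ℝ) : ℂ) = r := by
      apply Complex.ext
      · simp
      · simp [i3]
    rw [this, hr0]
  have hsp : (pc m c).Splits := IsAlgClosed.splits _
  have hdeg : (pc m c).coeff m ≠ 0 := by
    unfold pc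
    rw [finsetSum_coeff, sum_eq_single m]
    · rw [coeff_C_mul_X_pow, if_pos rfl]
      have := hc m le_rfl
      have h2 : (-1 : ℝ) ^ m * c m ≠ 0 := mul_ne_zero (pow_ne_zero _ (by norm_num)) this.ne'
      exact_mod_cast h2
    · intro l _ hl
      rw [coeff_C_mul_X_pow, if_neg (fun h => hl h.symm)]
    · intro hh
      exact absurd (mem_range.mpr (by omega)) hh
  have hnr : (pc m c).roots ≠ 0 := by
    intro h0
    have h1 := hsp.natDegree_eq_card_roots
    rw [h0, Multiset.card_zero] at h1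
    have := le_natDegree_of_ne_zero hdeg
    omega
  have key := hsp.eval_derivative_div_eval_of_ne_zero hne
  obtain ⟨-, -, h3⟩ := sum_im z hz _ hroots
  obtain ⟨h4, h5⟩ := h3 hnr
  rw [key]
  exact ⟨hne, h4, h5⟩

/-- `T_a P` has no zeros in the upper half plane -/
theorem nz_T (m : ℕ) (c : ℕ → ℝ) (a : ℝ) (h : Good (pc m c)) :
    NZ (pc m (fun l => (a + l) * c l)) := by
  intro z hz h0
  obtain ⟨h1, h2, -⟩ := h z hz
  rw [pc_deriv] at h0
  have : z * ((derivative (pc m c)).eval z / (pc m c).eval z) = -a := by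
    field_simp
    linear_combination h0
  rw [this] at h2
  simp at h2

theorem good_T (m : ℕ) (hm : 1 ≤ m) (c : ℕ → ℝ) (hc : ∀ l ≤ m, 0 < c l) (a : ℝ) (ha : 0 < a)
    (h : Good (pc m c)) : Good (pc m (fun l => (a + l) * c l)) := by
  apply good_of_nz m hm _ _ (nz_T m c a h)
  intro l hl
  have := hc l hl
  positivity

theorem inv_im_pos (a : ℝ) (w : ℂ) (hw : w.im < 0) : 0 < (1 / ((a : ℂ) + w)).im := by
  have hne : (a : ℂ) + w ≠ 0 := by
    intro h
    have := congrArg Complex.im h
    simp at this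
    linarith
  rw [one_div, Complex.inv_im]
  apply div_pos _ (Complex.normSq_pos.2 hne)
  simp
  exact hw

/-- adding a factor -/
theorem step_add (m : ℕ) (c c' d : ℕ → ℝ) (a κ κ' : ℝ) (hκ : 0 < κ) (hκ' : 0 < κ')
    (hd : Good (pc m d)) (h1 : ∀ l ≤ m, c l = κ * ((a + l) * d l)) (h2 : ∀ l ≤ m, c' l = κ' * d l)
    (z : ℂ) (hz : 0 < z.im) : 0 < ((pc m c').eval z / (pc m c).eval z).im := by
  obtain ⟨hne, hw, -⟩ := hd z hz
  rw [pc_congr m c _ h1, pc_congr m c' _ h2, pc_smul, pc_smul, pc_deriv]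
  set w := z * ((derivative (pc m d)).eval z / (pc m d).eval z) with hwdef
  have e : (a : ℂ) * (pc m d).eval z + z * (derivative (pc m d)).eval z =
      (pc m d).eval z * (a + w) := by
    rw [hwdef]
    field_simp
  have hne2 : (a : ℂ) + w ≠ 0 := by
    intro h
    have := congrArg Complex.im h
    simp at this
    linarith
  have hk : (κ : ℂ) ≠ 0 := by exact_mod_cast hκ.ne'
  have e2 : (κ' : ℂ) * (pc m d).eval z / (κ * ((pc m d).eval z * (a + w))) =
      ((κ' / κ : ℝ) : ℂ) * (1 / (a + w)) := by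
    push_cast
    field_simp
  rw [e, e2, Complex.im_ofReal_mul]
  exact mul_pos (by positivity) (inv_im_pos a w hw)

end Pool.Agent.Run7.h651.TG
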