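import Pool.Agent.Run7.h651.TG.A

/-!
The chain lemma: continuity of the sum of the arguments.
-/

set_option autoImplicit false

namespace Pool.Agent.Run7.h651.TG

open Polynomial Finset

/-- raising a parameter -/
theorem step_raise (m : ℕ) (c c' d : ℕ → ℝ) (a b κ κ' : ℝ) (hab : a < b) (hκ : 0 < κ)
    (hκ' : 0 < κ') (hd : Good (pc m d)) (h1 : ∀ l ≤ m, c l = κ * ((a + l) * d l))
    (h2 : ∀ l ≤ m, c' l = κ' * ((b + l) * d l))
    (z : ℂ) (hz : 0 < z.im) : 0 < ((pc m c').eval z / (pc m c).eval z).im := by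
  obtain ⟨hne, hw, -⟩ := hd z hz
  rw [pc_congr m c _ h1, pc_congr m c' _ h2, pc_smul, pc_smul, pc_deriv, pc_deriv]
  set w := z * ((derivative (pc m d)).eval z / (pc m d).eval z) with hwdef
  have e : ∀ a : ℝ, (a : ℂ) * (pc m d).eval z + z * (derivative (pc m d)).eval z =
      (pc m d).eval z * (a + w) := by
    intro a
    rw [hwdef]
    field_simp
  have hne2 : (a : ℂ) + w ≠ 0 := by
    intro h
    have := congrArg Complex.im h
    simp at this
    linarith
  have hk : (κ : ℂ) ≠ 0 := by exact_mod_cast hκ.ne'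
  have e2 : (κ' : ℂ) * ((pc m d).eval z * (b + w)) / (κ * ((pc m d).eval z * (a + w))) =
      ((κ' / κ : ℝ) : ℂ) * (1 + ((b - a : ℝ) : ℂ) * (1 / (a + w))) := by
    push_cast
    field_simp
    ring
  rw [e, e, e2, Complex.im_ofReal_mul, Complex.add_im, Complex.im_ofReal_mul, Complex.one_im,
    zero_add]
  have := inv_im_pos a w hw
  have hba : 0 < b - a := by linarith
  positivity

theorem arg_pos_of_im (x : ℂ) (hx : 0 < x.im) : 0 < x.arg := by
  have hne : x ≠ 0 := by
    rintro rfl
    simp at hx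
  have h1 : 0 < Real.sin x.arg := by
    rw [Complex.sin_arg]
    exact div_pos hx (norm_pos_iff.2 hne)
  by_contra h
  push Not at h
  have := Real.sin_nonpos_of_nonpos_of_neg_pi_le h (Complex.neg_pi_lt_arg x).le
  linarith

theorem chain (N : ℕ) (R : ℕ → ℂ[X])
    (h0 : ∀ k ≤ N, ∃ c : ℝ, 0 < c ∧ (R k).eval 0 = c)
    (hstep : ∀ k < N, ∀ z : ℂ, 0 < z.im → 0 < ((R (k + 1)).eval z / (R k).eval z).im)
    (hend : ∀ z : ℂ, 0 < z.im → 0 < ((R N).eval z / (R 0).eval z).im) :
    ∀ i, 0 < i → i ≤ N → ∀ z : ℂ, 0 < z.im → 0 < ((R i).eval z / (R 0).eval z).im := by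
  intro i hi hiN
  have hne : ∀ k ≤ N, ∀ z : ℂ, 0 < z.im → (R k).eval z ≠ 0 := by
    intro k hk z hz h
    rcases Nat.lt_or_ge k N with hlt | hge
    · have := hstep k hlt z hz
      rw [h] at this
      simp at this
    · have hkN : k = N := by omega
      have := hend z hz
      rw [← hkN, h] at this
      simp at this
  set Θ : ℕ → ℂ → ℝ := fun i z => ∑ k ∈ range i, ((R (k + 1)).eval z / (R k).eval z).arg with hΘ
  have polar : ∀ j ≤ N, ∀ z : ℂ, 0 < z.im → ∃ r : ℝ, 0 < r ∧
      (R j).eval z / (R 0).eval z = r * Complex.exp (Θ j z * Complex.I) := by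
    intro j
    induction j with
    | zero =>
      intro _ z hz
      refine ⟨1, one_pos, ?_⟩
      rw [div_self (hne 0 (Nat.zero_le _) z hz)]
      simp [hΘ]
    | succ j ih =>
      intro hj z hz
      obtain ⟨r, hr, e⟩ := ih (by omega) z hz
      set x := (R (j + 1)).eval z / (R j).eval z with hx
      have hxne : x ≠ 0 := div_ne_zero (hne _ hj z hz) (hne _ (by omega) z hz)
      refine ⟨‖x‖ * r, mul_pos (norm_pos_iff.2 hxne) hr, ?_⟩
      have e1 : (R (j + 1)).eval z / (R 0).eval z = x * ((R j).eval z / (R 0).eval z) := by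
        rw [hx]
        have := hne j (by omega) z hz
        field_simp
      have e2 : Θ (j + 1) z = Θ j z + x.arg := by
        simp only [hΘ]
        rw [sum_range_succ]
      rw [e1, e, e2]
      have e3 := Complex.norm_mul_exp_arg_mul_I x
      push_cast
      rw [add_mul, Complex.exp_add]
      calc x * (r * Complex.exp (Θ j z * Complex.I)) =
          (‖x‖ * Complex.exp (x.arg * Complex.I)) * (r * Complex.exp (Θ j z * Complex.I)) := by
            rw [e3]
        _ = _ := by ring
  have him : ∀ (r θ : ℝ), ((r : ℂ) * Complex.exp (θ * Complex.I)).im = r * Real.sin θ := by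
    intro r θ
    rw [Complex.im_ofReal_mul, Complex.exp_ofReal_mul_I_im]
  have hΘcont : ∀ z : ℂ, 0 < z.im → ContinuousAt (Θ N) z := by
    intro z hz
    simp only [hΘ]
    apply tendsto_finset_sum
    intro k hk
    rw [mem_range] at hk
    have h1 := hstep k hk z hz
    apply ContinuousAt.comp (f := fun z => (R (k + 1)).eval z / (R k).eval z)
      (g := Complex.arg)
    · apply Complex.continuousAt_arg
      right
      exact h1.ne'
    · exact ((R (k + 1)).continuous.continuousAt).div ((R k).continuous.continuousAt)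
        (hne k (by omega) z hz)
  have hΘ0 : ContinuousAt (Θ N) 0 := by
    simp only [hΘ]
    apply tendsto_finset_sum
    intro k hk
    rw [mem_range] at hk
    obtain ⟨c, hc, e⟩ := h0 (k + 1) (by omega)
    obtain ⟨c', hc', e'⟩ := h0 k (by omega)
    apply ContinuousAt.comp (f := fun z => (R (k + 1)).eval z / (R k).eval z)
      (g := Complex.arg)
    · apply Complex.continuousAt_arg
      left
      rw [e, e', ← Complex.ofReal_div, Complex.ofReal_re]
      positivity
    · apply ((R (k + 1)).continuous.continuousAt).div ((R k).continuous.continuousAt)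
      rw [e']
      exact_mod_cast hc'.ne'
  have hval0 : Θ N 0 = 0 := by
    simp only [hΘ]
    apply sum_eq_zero
    intro k hk
    rw [mem_range] at hk
    obtain ⟨c, hc, e⟩ := h0 (k + 1) (by omega)
    obtain ⟨c', hc', e'⟩ := h0 k (by omega)
    rw [e, e', ← Complex.ofReal_div]
    exact Complex.arg_ofReal_of_nonneg (by positivity)
  have hnepi : ∀ z : ℂ, 0 < z.im → Θ N z ≠ Real.pi := by
    intro z hz h
    obtain ⟨r, hr, e⟩ := polar N le_rfl z hz
    have := hend z hz
    rw [e, him, h, Real.sin_pi, mul_zero] at this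
    exact lt_irrefl _ this
  obtain ⟨t, ht, htpi⟩ : ∃ t : ℝ, 0 < t ∧ Θ N (t * Complex.I) < Real.pi := by
    have h1 : Filter.Tendsto (fun t : ℝ => Θ N (t * Complex.I)) (nhds 0) (nhds 0) := by
      have h2 : ContinuousAt (fun t : ℝ => (t : ℂ) * Complex.I) 0 := by fun_prop
      have h3 : ContinuousAt (Θ N) ((fun t : ℝ => (t : ℂ) * Complex.I) 0) := by
        simpa using hΘ0
      have h4 := ContinuousAt.comp (f := fun t : ℝ => (t : ℂ) * Complex.I) h3 h2
      have h5 : Filter.Tendsto (Θ N ∘ fun t : ℝ => (t : ℂ) * Complex.I) (nhds 0)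
          (nhds ((Θ N ∘ fun t : ℝ => (t : ℂ) * Complex.I) 0)) := h4
      have h6 : (Θ N ∘ fun t : ℝ => (t : ℂ) * Complex.I) 0 = 0 := by
        simp [hval0]
      rw [h6] at h5
      exact h5
    have h2 : ∀ᶠ t : ℝ in nhds 0, Θ N (t * Complex.I) < Real.pi :=
      h1.eventually_lt_const Real.pi_pos
    have h3 : ∀ᶠ t : ℝ in nhdsWithin 0 (Set.Ioi 0), Θ N (t * Complex.I) < Real.pi :=
      h2.filter_mono nhdsWithin_le_nhds
    obtain ⟨t, h4, h5⟩ := (h3.and self_mem_nhdsWithin).exists
    exact ⟨t, h5, h4⟩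
  have hlt : ∀ z : ℂ, 0 < z.im → Θ N z < Real.pi := by
    intro z hz
    by_contra hcon
    push Not at hcon
    set g : ℝ → ℂ := fun s => (1 - s) * (t * Complex.I) + s * z with hg
    have hgim : ∀ s ∈ Set.Icc (0 : ℝ) 1, 0 < (g s).im := by
      intro s hs
      have : (g s).im = (1 - s) * t + s * z.im := by
        simp [hg]
      rw [this]
      rcases eq_or_lt_of_le hs.1 with h | h
      · rw [← h]
        simpa using ht
      · have : 0 < s * z.im := mul_pos h hz
        have h2 : 0 ≤ (1 - s) * t := mul_nonneg (by linarith [hs.2]) ht.le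
        linarith
    have hgc : Continuous g := by
      simp only [hg]
      fun_prop
    have hc : ContinuousOn (fun s => Θ N (g s)) (Set.Icc 0 1) := by
      intro s hs
      exact (ContinuousAt.comp (hΘcont _ (hgim s hs)) hgc.continuousAt).continuousWithinAt
    have h1 := intermediate_value_Icc (zero_le_one' ℝ) hc
    have e0 : g 0 = t * Complex.I := by simp [hg]
    have e1 : g 1 = z := by simp [hg]
    obtain ⟨s, hs, hs2⟩ := h1 (show Real.pi ∈ Set.Icc (Θ N (g 0)) (Θ N (g 1)) by
      rw [e0, e1]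
      exact ⟨htpi.le, hcon⟩)
    exact hnepi _ (hgim s hs) hs2
  intro z hz
  obtain ⟨r, hr, e⟩ := polar i hiN z hz
  rw [e, him]
  apply mul_pos hr
  have hpos : ∀ k ∈ range N, 0 < ((R (k + 1)).eval z / (R k).eval z).arg := by
    intro k hk
    exact arg_pos_of_im _ (hstep k (mem_range.1 hk) z hz)
  apply Real.sin_pos_of_pos_of_lt_pi
  · simp only [hΘ]
    apply sum_pos
    · intro k hk
      rw [mem_range] at hk
      exact hpos k (mem_range.2 (by omega))
    · exact ⟨0, mem_range.2 hi⟩
  · apply lt_of_le_of_lt _ (hlt z hz)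
    simp only [hΘ]
    apply sum_le_sum_of_subset_of_nonneg
    · intro k hk
      rw [mem_range] at hk ⊢
      omega
    · intro k hk _
      exact (hpos k hk).le

end Pool.Agent.Run7.h651.TG
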