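import Pool.Agent.Run7.h651.TG.B

/-!
The explicit coefficients.
-/

set_option autoImplicit false

namespace Pool.Agent.Run7.h651.TG

open Polynomial Finset

theorem good_base (m : ℕ) (hm : 1 ≤ m) : Good (pc m (fun l => (m.choose l : ℝ))) := by
  apply good_of_nz m hm
  · intro l hl
    exact_mod_cast Nat.choose_pos hl
  · intro z hz
    have h : (pc m (fun l => (m.choose l : ℝ))).eval z = (1 - z) ^ m := by
      rw [pc_eval, show (1 : ℂ) - z = -z + 1 by ring, add_pow]
      apply sum_congr rfl
      intro l _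
      rw [neg_pow z l, one_pow, mul_one]
      push_cast
      ring
    rw [h]
    apply pow_ne_zero
    intro h1
    have := congrArg Complex.im h1
    simp at this
    exact hz.ne' this

theorem good_prod (m : ℕ) (hm : 1 ≤ m) (f : ℕ → ℝ) (s : Finset ℕ) (hf : ∀ r ∈ s, 0 < f r)
    (c : ℕ → ℝ) (hc : ∀ l ≤ m, 0 < c l) (h : Good (pc m c)) :
    Good (pc m (fun l => (∏ r ∈ s, (f r + l)) * c l)) := by
  classical
  induction s using Finset.induction_on with
  | empty => simpa using h
  | insert a s ha ih =>
    have h1 := ih fun r hr => hf r (mem_insert_of_mem hr)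
    have h2 := good_T m hm _ (fun l hl => by
      have h3 : 0 < ∏ r ∈ s, (f r + (l : ℝ)) := by
        apply prod_pos
        intro r hr
        have := hf r (mem_insert_of_mem hr)
        positivity
      exact mul_pos h3 (hc l hl)) (f a) (hf a (mem_insert_self a s)) h1
    have h3 : (fun l : ℕ => (∏ r ∈ insert a s, (f r + (l : ℝ))) * c l) =
        fun l : ℕ => (f a + l) * ((∏ r ∈ s, (f r + (l : ℝ))) * c l) := by
      funext l
      rw [prod_insert ha]
      ring
    rw [h3]
    exact h2

/-- the coefficients of the contribution polynomials -/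
noncomputable def Gc (m e j l : ℕ) : ℝ :=
  ((catalan (m + e + l - j) * (m + e + l).choose (m - l) : ℕ) : ℝ)

theorem catalan_step (p : ℕ) : ((p : ℝ) + 2) * catalan (p + 1) = 4 * (p + 1 / 2) * catalan p := by
  have h1 := succ_mul_catalan_eq_centralBinom (p + 1)
  have h2 := succ_mul_catalan_eq_centralBinom p
  have h3 := Nat.succ_mul_centralBinom_succ p
  rw [← h1, ← h2] at h3
  have h4 : ((p : ℝ) + 1) * (((p : ℝ) + 1 + 1) * catalan (p + 1)) =
      2 * (2 * p + 1) * (((p : ℝ) + 1) * catalan p) := by
    exact_mod_cast h3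
  have hp : (p : ℝ) + 1 ≠ 0 := by positivity
  apply mul_left_cancel₀ hp
  linear_combination h4

theorem Gc_step (m e j l : ℕ) (hj : j + 1 ≤ m) :
    ((m : ℝ) + e - j + 1 + l) * Gc m e j l = 4 * ((m : ℝ) + e - j - 1 / 2 + l) * Gc m e (j + 1) l := by
  obtain ⟨p, hp⟩ : ∃ p, m + e + l - j = p + 1 := ⟨m + e + l - j - 1, by omega⟩
  have h1 := catalan_step p
  have hpc : (p : ℝ) = m + e + l - j - 1 := by
    have : m + e + l = p + 1 + j := by omega
    have h2 : ((m + e + l : ℕ) : ℝ) = ((p + 1 + j : ℕ) : ℝ) := by rw [this]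
    push_cast at h2
    linarith
  unfold Gc
  rw [hp, show m + e + l - (j + 1) = p by omega]
  push_cast
  rw [hpc] at h1
  linear_combination ((m + e + l).choose (m - l) : ℝ) * h1

theorem catalan_fac' (l : ℕ) : catalan l * (l + 1).factorial * l.factorial = (2 * l).factorial := by
  have h1 := succ_mul_catalan_eq_centralBinom l
  have h2 := Nat.centralBinom_eq_two_mul_choose l
  have h3 := Nat.choose_mul_factorial_mul_factorial (n := 2 * l) (k := l) (by omega)
  rw [show 2 * l - l = l by omega, ← h2, ← h1] at h3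
  rw [Nat.factorial_succ, ← h3]
  ring

theorem prod_fac (m a l : ℕ) (hm : 1 ≤ m) :
    (∏ r ∈ Ico 2 (m + 1), ((a : ℝ) + r + l)) * ((a + l + 1).factorial : ℝ) =
      ((m + a + l).factorial : ℝ) := by
  obtain ⟨k, rfl⟩ : ∃ k, m = k + 1 := ⟨m - 1, by omega⟩
  clear hm
  induction k with
  | zero =>
    simp only [zero_add]
    rw [show Ico 2 (1 + 1) = (∅ : Finset ℕ) by simp, prod_empty, one_mul,
      show a + l + 1 = 1 + a + l by omega]
  | succ k ih =>
    rw [prod_Ico_succ_top (by omega), mul_right_comm, ih,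
      show k + 1 + 1 + a + l = (k + 1 + a + l) + 1 by omega, Nat.factorial_succ]
    push_cast
    ring

theorem Gc_top (m e l : ℕ) (he : e ≤ 1) (hm : 1 ≤ m) (hl : l ≤ m) :
    Gc m e m l = ((1 + e : ℕ) : ℝ) / (m.factorial : ℝ) *
      ((m.choose l : ℝ) * ∏ s ∈ Ico 2 (m + 1), ((e : ℝ) + s + l)) := by
  have hf := prod_fac m e l hm
  have hm0 : (m.factorial : ℝ) ≠ 0 := by positivity
  have hq : ((e + l + 1).factorial : ℝ) ≠ 0 := by positivity
  have e1 : m + e + l - m = e + l := by omega
  have c1 := catalan_fac' (e + l)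
  have c2 := Nat.choose_mul_factorial_mul_factorial (n := m + e + l) (k := m - l) (by omega)
  rw [show m + e + l - (m - l) = e + 2 * l by omega] at c2
  have c3 := Nat.choose_mul_factorial_mul_factorial hl
  have key : (catalan (e + l) * (m + e + l).choose (m - l)) * m.factorial *
      (e + l + 1).factorial = (1 + e) * (m.choose l * (m + e + l).factorial) := by
    have hpos : 0 < (e + l).factorial * (m - l).factorial * (e + 2 * l).factorial := by positivity
    apply Nat.eq_of_mul_eq_mul_right hpos
    have c4 : (2 * (e + l)).factorial * l.factorial = (1 + e) * ((e + 2 * l).factorial *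
        (e + l).factorial) := by
      interval_cases e
      · simp
      · rw [show 2 * (1 + l) = (1 + 2 * l) + 1 by omega, Nat.factorial_succ,
          show 1 + l = l + 1 by omega, Nat.factorial_succ l]
        ring
    have hl0 : 0 < l.factorial := Nat.factorial_pos l
    apply Nat.eq_of_mul_eq_mul_right hl0
    calc (catalan (e + l) * (m + e + l).choose (m - l)) * m.factorial *
          (e + l + 1).factorial * ((e + l).factorial * (m - l).factorial *
          (e + 2 * l).factorial) * l.factorial
        = (catalan (e + l) * (e + l + 1).factorial * (e + l).factorial) * l.factorial *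
          ((m + e + l).choose (m - l) * (m - l).factorial * (e + 2 * l).factorial) *
          m.factorial := by ring
      _ = (1 + e) * ((e + 2 * l).factorial * (e + l).factorial) * (m + e + l).factorial *
          (m.choose l * l.factorial * (m - l).factorial) := by rw [c1, c2, c4, c3]
      _ = _ := by ring
  unfold Gc
  rw [e1]
  have key' : ((catalan (e + l) * (m + e + l).choose (m - l) : ℕ) : ℝ) * m.factorial *
      (e + l + 1).factorial = ((1 + e : ℕ) : ℝ) * (m.choose l * (m + e + l).factorial) := by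
    exact_mod_cast key
  rw [← hf] at key'
  rw [div_mul_eq_mul_div, eq_div_iff hm0]
  apply mul_right_cancel₀ hq
  linear_combination key'

theorem Gc_form (m e : ℕ) (he : e ≤ 1) (hm : 1 ≤ m) (t : ℕ) (ht : t + 1 ≤ m) :
    ∃ κ : ℝ, 0 < κ ∧ ∀ l ≤ m, Gc m e (m - t) l = κ * ((m.choose l : ℝ) *
      (∏ r ∈ range t, ((e : ℝ) + 1 / 2 + r + l)) * ∏ s ∈ Ico (t + 2) (m + 1), ((e : ℝ) + s + l)) := by
  induction t with
  | zero =>
    refine ⟨((1 + e : ℕ) : ℝ) / (m.factorial : ℝ), by positivity, ?_⟩
    intro l hl
    rw [Nat.sub_zero, Gc_top m e l he hm hl]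
    simp
  | succ t ih =>
    obtain ⟨κ, hκ, h⟩ := ih (by omega)
    refine ⟨4 * κ, by positivity, ?_⟩
    intro l hl
    have h1 := Gc_step m e (m - (t + 1)) l (by omega)
    rw [show m - (t + 1) + 1 = m - t by omega, h l hl] at h1
    have hc : ((m - (t + 1) : ℕ) : ℝ) = m - t - 1 := by
      rw [Nat.cast_sub (by omega)]
      push_cast
      ring
    rw [hc] at h1
    have h2 : ∏ s ∈ Ico (t + 2) (m + 1), ((e : ℝ) + s + l) =
        ((e : ℝ) + (t + 2) + l) * ∏ s ∈ Ico (t + 1 + 2) (m + 1), ((e : ℝ) + s + l) := by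
      rw [prod_eq_prod_Ico_succ_bot (by omega)]
      push_cast
      rfl
    rw [h2] at h1
    rw [prod_range_succ]
    have hne : (e : ℝ) + (t + 2) + l ≠ 0 := by positivity
    apply mul_left_cancel₀ hne
    linear_combination h1

end Pool.Agent.Run7.h651.TG
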