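import Pool.Agent.R123.Toric.Zero

/-!
The polynomial obtained from the first toric contribution polynomial by dividing the coefficients
by `n + 1 - k` is real-rooted (same orthogonality argument as for `j = 0`).
-/

set_option autoImplicit false

namespace Pool.Agent.Run7.h651.TG

open Polynomial Finset R123.Toric

/-- the coefficients -/
noncomputable def kc (n k : ℕ) : ℝ := A n 0 k / (2 * (n : ℝ) - 1 - 2 * k)

theorem den_ne (n k : ℕ) (hn : 2 ≤ n) (hk : k < n / 2 + 1) : 2 * (n : ℝ) - 1 - 2 * k ≠ 0 := by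
  have h1 : (2 * k : ℝ) ≤ n := by exact_mod_cast (by omega : 2 * k ≤ n)
  have h2 : (2 : ℝ) ≤ n := by exact_mod_cast hn
  intro h
  linarith

theorem momentK (n i : ℕ) (hi : i + 2 < n) (hpar : i % 2 = n % 2) :
    ∑ k ∈ range (n / 2 + 1), (-3 * kc n k) / ((n : ℝ) + 1 + i - 2 * k) =
      -(1 / ((n : ℝ) + 1 - i)) := by
  have h1 := moment n i (by omega) hpar
  have h2 := moment n (n - 2) (by omega) (by omega)
  have hc : ((n - 2 : ℕ) : ℝ) = n - 2 := by
    rw [Nat.cast_sub (by omega)]
    norm_num
  rw [hc] at h2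
  have hlt : (i : ℝ) + 2 < n := by exact_mod_cast hi
  have hne : (n : ℝ) - 2 - i ≠ 0 := by
    intro h
    linarith
  have h3 : ∀ k ∈ range (n / 2 + 1), (-3 * kc n k) / ((n : ℝ) + 1 + i - 2 * k) =
      (-3) / ((n : ℝ) - 2 - i) * (A n 0 k / ((n : ℝ) + 1 + i - 2 * k) -
        A n 0 k / ((n : ℝ) + 1 + (n - 2) - 2 * k)) := by
    intro k hk
    rw [mem_range] at hk
    have a2 := den_ne n k (by omega) hk
    have a1 : (n : ℝ) + 1 + i - 2 * k ≠ 0 := by
      have : (2 * k : ℝ) ≤ n := by exact_mod_cast (by omega : 2 * k ≤ n)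
      have h3 : (0 : ℝ) ≤ i := by positivity
      intro h
      linarith
    have a3 : (n : ℝ) + 1 + (n - 2) - 2 * k = 2 * n - 1 - 2 * k := by ring
    unfold kc
    rw [a3]
    field_simp
    ring
  rw [sum_congr rfl h3, ← mul_sum, sum_sub_distrib, h1, h2]
  have hne2 : (n : ℝ) + 1 - i ≠ 0 := by
    intro h
    linarith
  have hne3 : (n : ℝ) + 1 - (n - 2) ≠ 0 := by
    intro h
    linarith
  field_simp
  ring

/-- the polynomial in `w = u^2` -/
noncomputable def tk (n : ℕ) : ℝ[X] :=
  ∑ k ∈ range (n / 2 + 1), C (-3 * kc n k) * X ^ (n / 2 - k)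

theorem tk_one (n : ℕ) (hn : 2 ≤ n) : (tk n).eval 1 = 1 := by
  unfold tk
  rw [eval_finsetSum]
  simp only [eval_mul, eval_C, eval_pow, eval_X, one_pow, mul_one]
  have h2 := moment n (n - 2) (by omega) (by omega)
  have hc : ((n - 2 : ℕ) : ℝ) = n - 2 := by
    rw [Nat.cast_sub hn]
    norm_num
  rw [hc] at h2
  have h3 : ∀ k ∈ range (n / 2 + 1), -3 * kc n k =
      (-3) * (A n 0 k / ((n : ℝ) + 1 + (n - 2) - 2 * k)) := by
    intro k hk
    have a3 : (n : ℝ) + 1 + (n - 2) - 2 * k = 2 * n - 1 - 2 * k := by ring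
    unfold kc
    rw [a3]
  rw [sum_congr rfl h3, ← mul_sum, h2]
  have : (n : ℝ) + 1 - (n - 2) = 3 := by ring
  rw [this]
  norm_num

theorem tk_coeff (n : ℕ) : (tk n).natDegree ≤ n / 2 := by
  unfold tk
  apply natDegree_sum_le_of_forall_le
  intro k _
  exact (natDegree_C_mul_X_pow_le _ _).trans (Nat.sub_le _ _)

theorem integral_zeroK (n : ℕ) (q : ℝ[X]) (hq : q.natDegree < n / 2 - 1) :
    ∫ u in (0 : ℝ)..1, (u ^ (2 * (n % 2)) * ((tk n).eval (u ^ 2) * q.eval (u ^ 2)) +
      ∑ l ∈ range (n / 2 - 1), q.coeff l * u ^ (2 * (n / 2 - l))) = 0 := by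
  have e1 : ∀ u : ℝ, u ^ (2 * (n % 2)) * ((tk n).eval (u ^ 2) * q.eval (u ^ 2)) =
      ∑ l ∈ range (n / 2 - 1), ∑ k ∈ range (n / 2 + 1),
        (q.coeff l * (-3 * kc n k)) * u ^ (2 * (n % 2) + 2 * (n / 2 - k) + 2 * l) := by
    intro u
    rw [eval_eq_sum_range' hq (u ^ 2)]
    unfold tk
    rw [eval_finsetSum, sum_mul_sum, sum_comm, mul_sum]
    apply sum_congr rfl
    intro l _
    rw [mul_sum]
    apply sum_congr rfl
    intro k _
    simp only [eval_mul, eval_C, eval_pow, eval_X]
    rw [pow_add, pow_add, ← pow_mul, ← pow_mul]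
    ring
  have e2 : ∫ u in (0 : ℝ)..1, (∑ l ∈ range (n / 2 - 1), ∑ k ∈ range (n / 2 + 1),
        (q.coeff l * (-3 * kc n k)) * u ^ (2 * (n % 2) + 2 * (n / 2 - k) + 2 * l)) =
      ∑ l ∈ range (n / 2 - 1), q.coeff l * (-(1 / (2 * ((n / 2 : ℕ) : ℝ) - 2 * l + 1))) := by
    rw [intervalIntegral.integral_finsetSum]
    · apply sum_congr rfl
      intro l hl
      rw [mem_range] at hl
      rw [intervalIntegral.integral_finsetSum]
      · have hm := momentK n (n % 2 + 2 * l) (by omega) (by omega)
        have e3 : ((n : ℝ) + 1 - ((n % 2 + 2 * l : ℕ) : ℝ)) =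
            (2 * ((n / 2 : ℕ) : ℝ) - 2 * l + 1) := by
          have : (n : ℝ) = ((2 * (n / 2) + n % 2 : ℕ) : ℝ) := by
            rw [Nat.div_add_mod]
          rw [this]
          push_cast
          ring
        rw [e3] at hm
        rw [← hm, mul_sum]
        apply sum_congr rfl
        intro k hk
        rw [mem_range] at hk
        rw [intervalIntegral.integral_const_mul, integral_pow]
        have e4 : ((2 * (n % 2) + 2 * (n / 2 - k) + 2 * l : ℕ) : ℝ) + 1 =
            (n : ℝ) + 1 + ((n % 2 + 2 * l : ℕ) : ℝ) - 2 * k := by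
          have h5 : n = 2 * (n / 2) + n % 2 := (Nat.div_add_mod n 2).symm
          have h6 : 2 * (n % 2) + 2 * (n / 2 - k) + 2 * l + 1 + 2 * k =
            n + 1 + (n % 2 + 2 * l) := by omega
          have h7 : ((2 * (n % 2) + 2 * (n / 2 - k) + 2 * l + 1 + 2 * k : ℕ) : ℝ) =
            ((n + 1 + (n % 2 + 2 * l) : ℕ) : ℝ) := by rw [h6]
          push_cast at h7 ⊢
          linarith
        rw [e4]
        simp
        ring
      · intro k _
        exact (Continuous.intervalIntegrable (by fun_prop) _ _)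
    · intro l _
      exact (Continuous.intervalIntegrable (by fun_prop) _ _)
  have e5 : ∫ u in (0 : ℝ)..1, (∑ l ∈ range (n / 2 - 1), q.coeff l * u ^ (2 * (n / 2 - l))) =
      ∑ l ∈ range (n / 2 - 1), q.coeff l * (1 / (2 * ((n / 2 : ℕ) : ℝ) - 2 * l + 1)) := by
    rw [intervalIntegral.integral_finsetSum]
    · apply sum_congr rfl
      intro l hl
      rw [mem_range] at hl
      rw [intervalIntegral.integral_const_mul, integral_pow]
      have e4 : ((2 * (n / 2 - l) : ℕ) : ℝ) + 1 = 2 * ((n / 2 : ℕ) : ℝ) - 2 * l + 1 := by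
        rw [Nat.cast_mul, Nat.cast_sub (by omega)]
        push_cast
        ring
      rw [e4]
      simp
    · intro l _
      exact (Continuous.intervalIntegrable (by fun_prop) _ _)
  simp_rw [e1]
  rw [intervalIntegral.integral_add, e2, e5, ← sum_add_distrib]
  · apply sum_eq_zero
    intro l _
    ring
  · exact (Continuous.intervalIntegrable (by fun_prop) _ _)
  · exact (Continuous.intervalIntegrable (by fun_prop) _ _)

theorem tk_splits (n : ℕ) (hn : 2 ≤ n) : (tk n).Splits := by
  have ht : tk n ≠ 0 := by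
    intro h
    have := tk_one n hn
    rw [h] at this
    simp at this
  obtain ⟨q, r, hqr, hm, hs, hpos, hr⟩ := exists_factor _ (tk n) ht le_rfl
  have hr0 : r ≠ 0 := by
    rintro rfl
    rw [mul_zero] at hqr
    exact ht hqr
  have hd := tk_coeff n
  have hd2 : (tk n).natDegree = q.natDegree + r.natDegree := by
    conv_lhs => rw [hqr]
    exact natDegree_mul hm.ne_zero hr0
  by_cases hq : q.natDegree < n / 2 - 1
  · exfalso
    have h0 := integral_zeroK n q hq
    have hr1 : 0 < r.eval 1 := by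
      have h1 := tk_one n hn
      rw [hqr, eval_mul] at h1
      have h2 := hpos 1 le_rfl
      by_contra h3
      push Not at h3
      nlinarith
    have hrp : ∀ x, 0 < x → x < 1 → 0 < r.eval x := by
      intro x hx0 hx1
      by_contra h3
      push Not at h3
      have := intermediate_value_Icc hx1.le (r.continuous.continuousOn (s := Set.Icc x 1))
      obtain ⟨c, hc, hc0⟩ := this ⟨h3, hr1.le⟩
      rcases eq_or_lt_of_le hc.2 with h4 | h4
      · rw [h4] at hc0
        linarith
      · exact hr c (by linarith [hc.1]) h4 hc0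
    have hp : 0 < ∫ u in (0 : ℝ)..1, (u ^ (2 * (n % 2)) * ((tk n).eval (u ^ 2) * q.eval (u ^ 2)) +
      ∑ l ∈ range (n / 2 - 1), q.coeff l * u ^ (2 * (n / 2 - l))) := by
      apply intervalIntegral.intervalIntegral_pos_of_pos_on
      · exact (Continuous.intervalIntegrable (by fun_prop) _ _)
      · intro u hu
        have hu0 : 0 < u := hu.1
        have hu1 : u < 1 := hu.2
        have hw0 : 0 < u ^ 2 := by positivity
        have hw1 : u ^ 2 < 1 := by nlinarith
        apply add_pos_of_nonneg_of_pos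
        · rw [hqr, eval_mul]
          have := hrp (u ^ 2) hw0 hw1
          have h9 : q.eval (u ^ 2) * r.eval (u ^ 2) * q.eval (u ^ 2) =
            (q.eval (u ^ 2)) ^ 2 * r.eval (u ^ 2) := by ring
          rw [h9]
          positivity
        · have h10 : ∑ l ∈ range (n / 2 - 1), q.coeff l * u ^ (2 * (n / 2 - l)) =
              u ^ (2 * (n / 2)) * q.eval ((u ^ 2)⁻¹) := by
            rw [eval_eq_sum_range' hq, mul_sum]
            apply sum_congr rfl
            intro l hl
            rw [mem_range] at hl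
            have h11 : u ^ (2 * (n / 2)) = u ^ (2 * (n / 2 - l)) * (u ^ 2) ^ l := by
              rw [← pow_mul, ← pow_add]
              congr 1
              omega
            rw [h11, inv_pow]
            field_simp
          rw [h10]
          apply mul_pos (by positivity)
          apply hpos
          rw [one_le_inv₀ hw0]
          exact hw1.le
      · norm_num
    linarith
  · have h1 : r.natDegree ≤ 1 := by omega
    rw [hqr]
    exact hs.mul (Splits.of_natDegree_le_one h1)

end Pool.Agent.Run7.h651.TG
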