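import Pool.Agent.Run7.h651.TG.C
import Pool.Agent.Run7.h651.TG.K

/-!
The chain from the separating polynomial to the contribution polynomials.
-/

set_option autoImplicit false

namespace Pool.Agent.Run7.h651.TG

open Polynomial Finset R123.Toric

theorem Gc_pos (m e j l : ℕ) (hj : j ≤ m) (hl : l ≤ m) : 0 < Gc m e j l := by
  unfold Gc
  have h1 : 0 < (m + e + l).choose (m - l) := Nat.choose_pos (by omega)
  have h2 : 0 < catalan (m + e + l - j) := by
    have h := succ_mul_catalan_eq_centralBinom (m + e + l - j)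
    have h3 := Nat.centralBinom_pos (m + e + l - j)
    rcases Nat.eq_zero_or_pos (catalan (m + e + l - j)) with h4 | h4
    · rw [h4] at h
      omega
    · exact h4
  exact_mod_cast Nat.mul_pos h2 h1

/-- a real polynomial which splits has no zero in the upper half plane -/
theorem nz_of_splits (f : ℝ[X]) (hf : f.Splits) (h0 : f ≠ 0) (z : ℂ) (hz : 0 < z.im) :
    aeval z f ≠ 0 := by
  intro h
  have h1 : (f.map (algebraMap ℝ ℂ)).IsRoot z := by
    rw [IsRoot.def, eval_map_algebraMap]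
    exact h
  obtain ⟨r, hr⟩ := hf.mem_range_of_isRoot h0 h1
  have h2 : z.im = 0 := by
    rw [← hr]
    exact Complex.ofReal_im r
  linarith

theorem n_div (m e : ℕ) (he : e ≤ 1) : (2 * m + e) / 2 = m := by omega

theorem A_eq (m e k : ℕ) (hk : k ≤ m) : A (2 * m + e) 0 k = (-1) ^ k * Gc m e 0 (m - k) := by
  unfold A Gc
  rw [show 2 * m + e - k - 0 = m + e + (m - k) - 0 by omega,
    show 2 * m + e - k = m + e + (m - k) by omega, show m - (m - k) = k by omega]

theorem tz_eval (m e : ℕ) (he : e ≤ 1) (z : ℂ) :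
    aeval z (tz (2 * m + e)) = (-1) ^ m * (pc m (Gc m e 0)).eval z := by
  unfold tz
  rw [n_div m e he, map_sum, pc_eval, ← sum_range_reflect, mul_sum]
  apply sum_congr rfl
  intro l hl
  rw [mem_range] at hl
  rw [show m + 1 - 1 - l = m - l by omega, A_eq m e (m - l) (by omega),
    show m - (m - l) = l by omega]
  have h1 : ((-1 : ℂ)) ^ (m - l) = (-1) ^ m * (-1) ^ l := by
    have : m = (m - l) + l := by omega
    conv_rhs => rw [this]
    rw [pow_add, mul_assoc, ← pow_add, ← two_mul, pow_mul]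
    norm_num
  simp only [map_mul, aeval_C, map_pow, aeval_X, map_neg, map_one]
  rw [h1]
  push_cast
  simp
  ring

/-- coefficients of the auxiliary polynomial -/
noncomputable def Kc (m e l : ℕ) : ℝ := Gc m e 0 l / (4 * ((m : ℝ) + e - 1 / 2 + l))

theorem tk_eval (m e : ℕ) (he : e ≤ 1) (hm : 1 ≤ m) (z : ℂ) :
    aeval z (tk (2 * m + e)) = -6 * (-1) ^ m * (pc m (Kc m e)).eval z := by
  unfold tk
  rw [n_div m e he, map_sum, pc_eval, ← sum_range_reflect, mul_sum]
  apply sum_congr rfl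
  intro l hl
  rw [mem_range] at hl
  have hm1 : (1 : ℝ) ≤ m := by exact_mod_cast hm
  have hlr : (l : ℝ) ≤ m := by exact_mod_cast (by omega : l ≤ m)
  have hl0 : (0 : ℝ) ≤ l := by positivity
  have he0 : (0 : ℝ) ≤ e := by positivity
  have e1 : -3 * kc (2 * m + e) (m - l) = -6 * (-1) ^ m * ((-1) ^ l * Kc m e l) := by
    unfold kc Kc
    rw [A_eq m e (m - l) (by omega), show m - (m - l) = l by omega]
    have h1 : ((-1 : ℝ)) ^ (m - l) = (-1) ^ m * (-1) ^ l := by
      have : m = (m - l) + l := by omega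
      conv_rhs => rw [this]
      rw [pow_add, mul_assoc, ← pow_add, ← two_mul, pow_mul]
      norm_num
    rw [h1, Nat.cast_sub (by omega)]
    push_cast
    have hd1 : 2 * (2 * (m : ℝ) + e) - 1 - 2 * (m - l) ≠ 0 := by
      intro h
      linarith
    have hd2 : (m : ℝ) + e - 1 / 2 + l ≠ 0 := by
      intro h
      linarith
    have hd3 : 2 * (2 * (m : ℝ) + e) - 1 - 2 * (m - l) = 2 * ((m : ℝ) + e - 1 / 2 + l) := by ring
    rw [hd3]
    field_simp
    ring
  rw [show m + 1 - 1 - l = m - l by omega, e1, show m - (m - l) = l by omega]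
  simp only [map_mul, aeval_C, map_pow, aeval_X, map_neg, map_one]
  push_cast
  simp
  ring

theorem nz_Gc0 (m e : ℕ) (he : e ≤ 1) : NZ (pc m (Gc m e 0)) := by
  intro z hz h
  have h1 := nz_of_splits _ (tz_splits (2 * m + e)) (by
    intro h0
    have := tz_one (2 * m + e)
    rw [h0] at this
    simp at this) z hz
  rw [tz_eval m e he, h, mul_zero] at h1
  exact h1 rfl

theorem nz_Kc (m e : ℕ) (he : e ≤ 1) (hm : 1 ≤ m) : NZ (pc m (Kc m e)) := by
  intro z hz h
  have h1 := nz_of_splits _ (tk_splits (2 * m + e) (by omega)) (by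
    intro h0
    have := tk_one (2 * m + e) (by omega)
    rw [h0] at this
    simp at this) z hz
  rw [tk_eval m e he hm, h, mul_zero] at h1
  exact h1 rfl

theorem good_Gc0 (m e : ℕ) (he : e ≤ 1) (hm : 1 ≤ m) : Good (pc m (Gc m e 0)) :=
  good_of_nz m hm _ (fun l hl => Gc_pos m e 0 l (Nat.zero_le _) hl) (nz_Gc0 m e he)

theorem good_Kc (m e : ℕ) (he : e ≤ 1) (hm : 1 ≤ m) : Good (pc m (Kc m e)) := by
  apply good_of_nz m hm _ _ (nz_Kc m e he hm)
  intro l hl
  have := Gc_pos m e 0 l (Nat.zero_le _) hl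
  have hm1 : (1 : ℝ) ≤ m := by exact_mod_cast hm
  have h2 : 0 < (m : ℝ) + e - 1 / 2 + l := by
    have h3 : (0 : ℝ) ≤ l := by positivity
    have h4 : (0 : ℝ) ≤ e := by positivity
    linarith
  unfold Kc
  positivity

/-- first part of the chain -/
noncomputable def Hc (m e k l : ℕ) : ℝ :=
  (∏ r ∈ range k, (((e : ℝ) + 3 / 2 + r) + l)) * ((∏ r ∈ Ico k (m - 1), (((e : ℝ) + 1 + r) + l)) *
    (((e : ℝ) + 1 / 2 + l) * (m.choose l : ℝ)))

/-- the common factor of two neighbours in the first part -/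
noncomputable def Bc (m e k l : ℕ) : ℝ :=
  (∏ r ∈ range k, (((e : ℝ) + 3 / 2 + r) + l)) * ((∏ r ∈ Ico (k + 1) (m - 1),
    (((e : ℝ) + 1 + r) + l)) * (((e : ℝ) + 1 / 2 + l) * (m.choose l : ℝ)))

theorem good_Bc (m e k : ℕ) (hm : 1 ≤ m) : Good (pc m (Bc m e k)) := by
  have h1 := good_T m hm _ (fun l hl => by exact_mod_cast Nat.choose_pos hl)
    ((e : ℝ) + 1 / 2) (by positivity) (good_base m hm)
  have p1 : ∀ l ≤ m, 0 < ((e : ℝ) + 1 / 2 + l) * (m.choose l : ℝ) := by
    intro l hl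
    have : (0 : ℝ) < m.choose l := by exact_mod_cast Nat.choose_pos hl
    positivity
  have h2 := good_prod m hm (fun r => (e : ℝ) + 1 + r) (Ico (k + 1) (m - 1))
    (fun r _ => by positivity) _ p1 h1
  have p2 : ∀ l ≤ m, 0 < (∏ r ∈ Ico (k + 1) (m - 1), (((e : ℝ) + 1 + r) + l)) *
      (((e : ℝ) + 1 / 2 + l) * (m.choose l : ℝ)) := by
    intro l hl
    exact mul_pos (prod_pos fun r _ => by positivity) (p1 l hl)
  exact good_prod m hm (fun r => (e : ℝ) + 3 / 2 + r) (range k) (fun r _ => by positivity) _ p2 h2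

theorem H_step (m e k : ℕ) (hm : 1 ≤ m) (hk : k + 1 ≤ m - 1) (z : ℂ) (hz : 0 < z.im) :
    0 < ((pc m (Hc m e (k + 1))).eval z / (pc m (Hc m e k)).eval z).im := by
  apply step_raise m (Hc m e k) (Hc m e (k + 1)) (Bc m e k) ((e : ℝ) + 1 + k)
    ((e : ℝ) + 3 / 2 + k) 1 1 (by linarith) one_pos one_pos (good_Bc m e k hm) _ _ z hz
  · intro l hl
    unfold Hc Bc
    rw [prod_eq_prod_Ico_succ_bot (show k < m - 1 by omega)]
    ring
  · intro l hl
    unfold Hc Bc
    rw [prod_range_succ]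
    ring

end Pool.Agent.Run7.h651.TG
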