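import Pool.Agent.Run7.h651.TG.D

/-!
The remaining steps of the chain and the end condition.
-/

set_option autoImplicit false

namespace Pool.Agent.Run7.h651.TG

open Polynomial Finset R123.Toric

/-- the common factor of two neighbours in the second part -/
noncomputable def Dc (m e t l : ℕ) : ℝ :=
  (∏ r ∈ range t, (((e : ℝ) + 1 / 2 + r) + l)) * ((∏ s ∈ Ico (t + 3) (m + 1),
    (((e : ℝ) + s) + l)) * (m.choose l : ℝ))

theorem good_Dc (m e t : ℕ) (hm : 1 ≤ m) : Good (pc m (Dc m e t)) := by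
  have p0 : ∀ l ≤ m, (0 : ℝ) < (m.choose l : ℝ) := by
    intro l hl
    exact_mod_cast Nat.choose_pos hl
  have hs : ∀ s ∈ Ico (t + 3) (m + 1), 0 < (e : ℝ) + s := by
    intro s hs
    rw [mem_Ico] at hs
    have : (0 : ℝ) < s := by exact_mod_cast (by omega : 0 < s)
    positivity
  have h2 := good_prod m hm (fun s => (e : ℝ) + s) (Ico (t + 3) (m + 1)) hs _ p0 (good_base m hm)
  have p2 : ∀ l ≤ m, 0 < (∏ s ∈ Ico (t + 3) (m + 1), (((e : ℝ) + s) + l)) * (m.choose l : ℝ) := by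
    intro l hl
    apply mul_pos _ (p0 l hl)
    apply prod_pos
    intro s h
    have := hs s h
    positivity
  exact good_prod m hm (fun r => (e : ℝ) + 1 / 2 + r) (range t) (fun r _ => by positivity) _ p2 h2

theorem G_step (m e t : ℕ) (he : e ≤ 1) (hm : 1 ≤ m) (ht : t + 2 ≤ m) (z : ℂ) (hz : 0 < z.im) :
    0 < ((pc m (Gc m e (m - t))).eval z / (pc m (Gc m e (m - (t + 1)))).eval z).im := by
  obtain ⟨κ', hκ', h2⟩ := Gc_form m e he hm t (by omega)
  obtain ⟨κ, hκ, h1⟩ := Gc_form m e he hm (t + 1) (by omega)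
  apply step_raise m (Gc m e (m - (t + 1))) (Gc m e (m - t)) (Dc m e t) ((e : ℝ) + 1 / 2 + t)
    ((e : ℝ) + (t + 2)) κ κ' (by linarith) hκ hκ' (good_Dc m e t hm) _ _ z hz
  · intro l hl
    rw [h1 l hl, prod_range_succ]
    unfold Dc
    ring
  · intro l hl
    rw [h2 l hl, prod_eq_prod_Ico_succ_bot (show t + 2 < m + 1 by omega)]
    unfold Dc
    push_cast
    ring

theorem G_step0 (m e : ℕ) (he : e ≤ 1) (hm : 1 ≤ m) (z : ℂ) (hz : 0 < z.im) :
    0 < ((pc m (Gc m e 1)).eval z / (pc m (Gc m e 0)).eval z).im := by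
  have hm1 : (1 : ℝ) ≤ m := by exact_mod_cast hm
  have hpos : ∀ l : ℕ, 0 < (m : ℝ) + e - 1 / 2 + l := by
    intro l
    have h3 : (0 : ℝ) ≤ l := by positivity
    have h4 : (0 : ℝ) ≤ e := by positivity
    linarith
  apply step_raise m (Gc m e 0) (Gc m e 1) (Kc m e) ((m : ℝ) + e - 1 / 2)
    ((m : ℝ) + e + 1) 4 1 (by linarith) (by norm_num) one_pos (good_Kc m e he hm) _ _ z hz
  · intro l hl
    unfold Kc
    have key : ∀ x g : ℝ, x ≠ 0 → g = 4 * (x * (g / (4 * x))) := by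
      intro x g hx
      field_simp
    exact key _ _ (hpos l).ne'
  · intro l hl
    have h := Gc_step m e 0 l (by omega)
    unfold Kc
    rw [Nat.cast_zero, sub_zero, zero_add] at h
    have key : ∀ x y g g1 : ℝ, x ≠ 0 → y * g = 4 * x * g1 → g1 = 1 * (y * (g / (4 * x))) := by
      intro x y g g1 hx h
      rw [one_mul, ← mul_div_assoc, h]
      field_simp
    exact key _ _ _ _ (hpos l).ne' h

theorem HG_step (m e : ℕ) (he : e ≤ 1) (hm : 1 ≤ m) (z : ℂ) (hz : 0 < z.im) :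
    0 < ((pc m (Gc m e 0)).eval z / (pc m (Hc m e (m - 1))).eval z).im := by
  obtain ⟨κ, hκ, h1⟩ := Gc_form m e he hm (m - 1) (by omega)
  apply step_add m (Hc m e (m - 1)) (Gc m e 0) (Gc m e 0) ((m : ℝ) + e + 1) (1 / (4 * κ)) 1
    (by positivity) one_pos (good_Gc0 m e he hm) _ (fun l _ => by ring) z hz
  intro l hl
  have h := Gc_step m e 0 l (by omega)
  have h2 := h1 l hl
  rw [show m - (m - 1) = 0 + 1 by omega, show m - 1 + 2 = m + 1 by omega, Ico_self, prod_empty,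
    mul_one] at h2
  rw [h2, Nat.cast_zero, sub_zero] at h
  have h3 : Hc m e (m - 1) l = ((m : ℝ) + e - 1 / 2 + l) * ((m.choose l : ℝ) *
      ∏ r ∈ range (m - 1), ((e : ℝ) + 1 / 2 + r + l)) := by
    unfold Hc
    rw [Ico_self, prod_empty, one_mul]
    have h4 : (∏ r ∈ range (m - 1), (((e : ℝ) + 3 / 2 + r) + l)) * ((e : ℝ) + 1 / 2 + l) =
        ∏ r ∈ range (m - 1 + 1), ((e : ℝ) + 1 / 2 + r + l) := by
      rw [prod_range_succ']
      congr 1
      · apply prod_congr rfl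
        intro r _
        push_cast
        ring
      · simp
    rw [← mul_assoc, h4, prod_range_succ]
    have hc : ((m - 1 : ℕ) : ℝ) = m - 1 := by
      rw [Nat.cast_sub hm]
      norm_num
    rw [hc]
    ring
  rw [h3, h]
  have key : ∀ x P κ : ℝ, κ ≠ 0 → x * P = 1 / (4 * κ) * (4 * x * (κ * P)) := by
    intro x P κ hk
    field_simp
  exact key _ _ _ hκ.ne'

/-- the polynomial `Q` -/
noncomputable def Qc (m e l : ℕ) : ℝ :=
  (∏ r ∈ range (m - 1), (((e : ℝ) + 1 + r) + l)) * (m.choose l : ℝ)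

theorem good_Qc (m e : ℕ) (hm : 1 ≤ m) : Good (pc m (Qc m e)) :=
  good_prod m hm (fun r => (e : ℝ) + 1 + r) (range (m - 1)) (fun r _ => by positivity) _
    (fun l hl => by exact_mod_cast Nat.choose_pos hl) (good_base m hm)

theorem pc_shift (m : ℕ) (c : ℕ → ℝ) (hc : c (m + 1) = 0) (z : ℂ) :
    (pc m (fun l => ((l : ℝ) + 1) * c (l + 1))).eval z = -(derivative (pc m c)).eval z := by
  have hd : (derivative (pc m c)).eval z =
      ∑ l ∈ range m, ((l : ℂ) + 1) * ((((-1) ^ (l + 1) * c (l + 1) : ℝ)) : ℂ) * z ^ l := by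
    unfold pc
    rw [derivative_sum, eval_finsetSum, sum_range_succ']
    simp only [derivative_C_mul_X_pow]
    simp
    apply sum_congr rfl
    intro l _
    ring
  rw [hd, pc_eval, sum_range_succ, hc, ← sum_neg_distrib]
  simp only [mul_zero, Complex.ofReal_zero, zero_mul, add_zero]
  apply sum_congr rfl
  intro l _
  push_cast
  ring

theorem P_identity (m e : ℕ) (he : e ≤ 1) (hm : 1 ≤ m) : ∃ κ : ℝ, 0 < κ ∧ ∀ z : ℂ,
    (pc m (Gc m e m)).eval z = κ * (((m : ℂ) + e) * (pc m (Qc m e)).eval z +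
      z * (derivative (pc m (Qc m e))).eval z - (derivative (pc m (Qc m e))).eval z) := by
  obtain ⟨κ, hκ, h1⟩ := Gc_form m e he hm 0 (by omega)
  refine ⟨κ / ((m : ℝ) + e + 1), by positivity, ?_⟩
  intro z
  have hQ : Qc m e (m + 1) = 0 := by
    unfold Qc
    simp
  have h2 : ∀ l ≤ m, Gc m e m l = κ / ((m : ℝ) + e + 1) * ((((m : ℝ) + e) + l) * Qc m e l +
      ((l : ℝ) + 1) * Qc m e (l + 1)) := by
    intro l hl
    have h3 := h1 l hl
    rw [Nat.sub_zero, range_zero, prod_empty, mul_one, zero_add,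
      prod_Ico_eq_prod_range, show m + 1 - 2 = m - 1 by omega] at h3
    rw [h3]
    have hm0 : (m : ℝ) + e + 1 ≠ 0 := by positivity
    have h4 : (((m : ℝ) + e) + l) * Qc m e l = ((e : ℝ) + 1 + l) *
        ((m.choose l : ℝ) * ∏ r ∈ range (m - 1), ((e : ℝ) + ((2 + r : ℕ) : ℝ) + l)) := by
      have h5 : (∏ r ∈ range (m - 1), (((e : ℝ) + 1 + r) + l)) * ((e : ℝ) + 1 + ((m - 1 : ℕ) : ℝ) + l) =
          (∏ r ∈ range (m - 1), ((e : ℝ) + ((2 + r : ℕ) : ℝ) + l)) * ((e : ℝ) + 1 + l) := by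
        have a1 := prod_range_succ (fun r : ℕ => ((e : ℝ) + 1 + r) + l) (m - 1)
        have a2 := prod_range_succ' (fun r : ℕ => ((e : ℝ) + 1 + r) + l) (m - 1)
        rw [← a1, a2]
        congr 1
        · apply prod_congr rfl
          intro r _
          push_cast
          ring
        · simp
      have hc : ((m - 1 : ℕ) : ℝ) = m - 1 := by
        rw [Nat.cast_sub hm]
        norm_num
      rw [hc] at h5
      unfold Qc
      linear_combination (m.choose l : ℝ) * h5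
    have h6 : ((l : ℝ) + 1) * Qc m e (l + 1) = ((m : ℝ) - l) *
        ((m.choose l : ℝ) * ∏ r ∈ range (m - 1), ((e : ℝ) + ((2 + r : ℕ) : ℝ) + l)) := by
      have h7 := Nat.choose_succ_right_eq m l
      have h8 : (m.choose (l + 1) : ℝ) * ((l : ℝ) + 1) = (m.choose l : ℝ) * ((m : ℝ) - l) := by
        have : ((m.choose (l + 1) * (l + 1) : ℕ) : ℝ) = ((m.choose l * (m - l) : ℕ) : ℝ) := by
          rw [h7]
        push_cast [Nat.cast_sub hl] at this
        exact this
      have h9 : (∏ r ∈ range (m - 1), (((e : ℝ) + 1 + r) + ((l + 1 : ℕ) : ℝ))) =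
          ∏ r ∈ range (m - 1), ((e : ℝ) + ((2 + r : ℕ) : ℝ) + l) := by
        apply prod_congr rfl
        intro r _
        push_cast
        ring
      unfold Qc
      rw [h9]
      linear_combination (∏ r ∈ range (m - 1), ((e : ℝ) + ((2 + r : ℕ) : ℝ) + l)) * h8
    rw [h4, h6]
    field_simp
    ring
  have h10 : (pc m (Gc m e m)).eval z = ((κ / ((m : ℝ) + e + 1) : ℝ) : ℂ) *
      ((pc m (fun l => (((m : ℝ) + e) + l) * Qc m e l)).eval z +
        (pc m (fun l => ((l : ℝ) + 1) * Qc m e (l + 1))).eval z) := by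
    rw [pc_congr m _ _ h2, pc_smul]
    congr 1
    rw [pc_eval, pc_eval, pc_eval, ← sum_add_distrib]
    apply sum_congr rfl
    intro l _
    push_cast
    ring
  rw [h10, pc_deriv, pc_shift m _ hQ]
  push_cast
  ring

theorem end_step (m e : ℕ) (he : e ≤ 1) (hm : 1 ≤ m) (z : ℂ) (hz : 0 < z.im) :
    0 < ((pc m (Gc m e m)).eval z / (pc m (Hc m e 0)).eval z).im := by
  obtain ⟨κ, hκ, h1⟩ := P_identity m e he hm
  obtain ⟨hne, hw, hq⟩ := good_Qc m e hm z hz
  have hH : (pc m (Hc m e 0)).eval z = (((e : ℝ) + 1 / 2 : ℝ) : ℂ) * (pc m (Qc m e)).eval z +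
      z * (derivative (pc m (Qc m e))).eval z := by
    rw [← pc_deriv]
    congr 1
    apply pc_congr
    intro l _
    unfold Hc Qc
    rw [range_zero, prod_empty, one_mul, ← range_eq_Ico]
    ring
  set q := (derivative (pc m (Qc m e))).eval z / (pc m (Qc m e)).eval z with hqd
  have hD : (derivative (pc m (Qc m e))).eval z = q * (pc m (Qc m e)).eval z := by
    rw [hqd]
    field_simp
  have hDim : ((((e : ℝ) + 1 / 2 : ℝ) : ℂ) + z * q).im < 0 := by
    rw [Complex.add_im, Complex.ofReal_im, zero_add]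
    exact hw
  have hDne : (((e : ℝ) + 1 / 2 : ℝ) : ℂ) + z * q ≠ 0 := by
    intro h
    rw [h] at hDim
    simp at hDim
  have hr : (pc m (Gc m e m)).eval z / (pc m (Hc m e 0)).eval z = (κ : ℂ) *
      (((((m : ℝ) + e : ℝ) : ℂ) + z * q - q) / ((((e : ℝ) + 1 / 2 : ℝ) : ℂ) + z * q)) := by
    rw [h1, hH, hD]
    have e1 : (((e : ℝ) + 1 / 2 : ℝ) : ℂ) * (pc m (Qc m e)).eval z +
        z * (q * (pc m (Qc m e)).eval z) =
        (pc m (Qc m e)).eval z * ((((e : ℝ) + 1 / 2 : ℝ) : ℂ) + z * q) := by ring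
    rw [e1, eq_comm, mul_div_assoc', div_eq_div_iff hDne (mul_ne_zero hne hDne)]
    push_cast
    ring
  rw [hr, Complex.im_ofReal_mul, Complex.div_im, ← sub_div]
  apply mul_pos hκ
  apply div_pos _ (Complex.normSq_pos.2 hDne)
  have hm1 : (1 : ℝ) ≤ m := by exact_mod_cast hm
  simp only [Complex.add_re, Complex.sub_re, Complex.add_im, Complex.sub_im, Complex.ofReal_re,
    Complex.ofReal_im, Complex.mul_re, Complex.mul_im, zero_add] at hw ⊢
  have k1 : 0 < ((m : ℝ) - 1 / 2) * (-(z.re * q.im + z.im * q.re)) :=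
    mul_pos (by linarith) (by linarith)
  have k2 : 0 < ((e : ℝ) + 1 / 2) * (-q.im) := mul_pos (by positivity) (by linarith)
  have k3 : 0 ≤ z.im * (q.re ^ 2 + q.im ^ 2) := by positivity
  linear_combination k1 + k2 + k3

end Pool.Agent.Run7.h651.TG
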